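import Pool.Agent.TH93.CH.PPP

/-!
# How many strings of a random oracle have to be changed to put `PP` into the polynomial hierarchy?

An adversary who knows the random oracle `O` changes, for all large `n`, at most `g n` of the
strings of length at most `n`; the result is the oracle `A`.

* If, for every `ε > 0`, `g n ≤ 2 ^ (n ^ ε)` for infinitely many `n`, then for almost every `O` and
  for all these `A`, `PP` is not contained in `PH/poly` relative to `A`.
* Otherwise every oracle `O` can be changed such that `PP` is contained in `P` relative to `A`.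
-/

set_option autoImplicit false

namespace Pool.Agent.Results.MP_a54059_lc.ChangedStrings

open Pool.Agent.NPC Pool.Agent.H620R2.Gauge Pool.Agent.H943R3.PP
open Pool.Agent.H628R3.RO (randomOracle)
open Pool.Agent.W900.CH (Close)
open MeasureTheory

theorem result (g : ℕ → ℝ) :
    ((∀ ε : ℝ, 0 < ε → ∃ᶠ n : ℕ in Filter.atTop, g n ≤ 2 ^ (n : ℝ) ^ ε) →
      ∀ᵐ O ∂randomOracle, ∀ A : Oracle, Close g O A →
        ∃ L, IsPP A L ∧ ¬ IsPHpoly A L) ∧
    ((¬ ∀ ε : ℝ, 0 < ε → ∃ᶠ n : ℕ in Filter.atTop, g n ≤ 2 ^ (n : ℝ) ^ ε) →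
      ∀ O : Oracle, ∃ A : Oracle, Close g O A ∧ ∀ L, IsPP A L → IsP A L) :=
  Pool.Agent.TH93.CH.changedPP g

end Pool.Agent.Results.MP_a54059_lc.ChangedStrings
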