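import Pool.Agent.W901.NU.ShB

/-!
# `PP ⊆ PH` and the prediction of answers: the exact threshold is `√ (log m)`

`InPH` is the polynomial hierarchy (alternating polynomially bounded quantifiers in front of
polynomial-time predicates), `InPPclass` is `PP` (more than half of the certificates of a given
polynomial length are accepted by a polynomial-time verifier) and `PPHard` is hardness for `PP` under
polynomial-time many-one reductions.

A set `A` is `(f, ε)`-predictable in `PH` (`PredIn InPH f ε A`) if some function `g` with values of
polynomial length and graph in `PH` computes, for every nonempty list of `m` questions of length at
most `m ^ ε` about membership in `A` and for some hint of `O(log n)` bits, which may depend on the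
list in any way, predictions for a nonempty subset of `s` of the questions such that the number of
right predictions and the number of wrong predictions differ by at least `f m * √ s`. It is fully
`f`-predictable in `PH` if there are, without hints, such predictions for all questions and all lists
of questions of any length.

The theorem, for `ε > 0` and functions `f` with `f m ≤ √ m`.

* If `f m / √ (log m)` tends to infinity then `PP ⊆ PH` iff some `PP`-hard set is
  `(f, ε)`-predictable in `PH` iff all sets in `PP` are fully `f`-predictable in `PH`.
* If `f m ≤ c √ (log m)` for some constant `c` then every set whatsoever is `(f, ε)`-predictable in
  `PH`.

Proof of the first part. Online learning (the weighted vote of the prediction vectors for all hints,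
with learning rates `r / (8 m)`) turns predictions with an advantage above the threshold into a
program with a correlation of at least `1 / m` with membership in `A` for random strings, for every
distribution on the strings of a given length; boosting gives an advice string of polynomial length
with which all questions up to a given length are answered correctly in `PH`. For the tree of the
prefixes of certificates one guesses an advice string and checks that the numbers of accepted
certificates that it claims are locally consistent: at every inner node the claimed number is the sum
of the claimed numbers of the two sons, at the leaves it is the right one. Local consistency implies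
correctness, and this is a formula of the polynomial hierarchy.

The ingredients are in the library folder `Pool/Agent/W901/NU` of the starting repository
(`class_law`, `pp_sub_of_hasAdv`, `thrSat_hard`); this instance was not handed in before.
-/

set_option autoImplicit false

namespace Pool.Agent.Results.MP_a54059_lc.PredictionThreshold

open Filter Pool.Agent.NPC Pool.Agent.W901.NU
open Pool.Agent.NPC.Cnt (CNF satCount)
open Pool.Agent.W903.GP (InPH)

/-- **The threshold law for `PP` and the polynomial hierarchy.** -/
theorem result (f : ℕ → ℝ) (ε : ℝ) (hε : 0 < ε) (hf : ∀ m : ℕ, 1 ≤ m → f m ≤ Real.sqrt m) :
    (Tendsto (fun m : ℕ => f m / Real.sqrt (Real.log m)) atTop atTop → List.TFAE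
      [∀ L : Set (List Bool), InPPclass L → InPH L,
        ∃ A : Set (List Bool), PPHard A ∧ PredIn InPH f ε A,
        ∀ A : Set (List Bool), InPPclass A → FullyPredIn InPH f A]) ∧
    (∀ c : ℝ, (∀ m : ℕ, 1 ≤ m → f m ≤ c * Real.sqrt (Real.log m)) →
      ∀ A : Set (List Bool), PredIn InPH f ε A) :=
  ⟨fun h => class_law cl_ph (fun A hA hA' => pp_sub_of_hasAdv cl_ph A hA hA') thrSat_hard
    (thr_inPP countP_satCount) hε hf h, fun _ h A => predIn_of_le cl_ph hf h A⟩

end Pool.Agent.Results.MP_a54059_lc.PredictionThreshold
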