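import Pool.Agent.TH762.QP.Law

/-!
# `PP` and the polynomial hierarchy: excluding one value of the number of positive answers

`InPPclass` is the class `PP` (more than half of the strings of a polynomial length are accepted by a
polynomial-time verifier), `PPHard` is hardness for `PP` under polynomial-time many-one reductions
(`Pool.Agent.W901.NU.Srch`), and `InPH` is the polynomial hierarchy (`Pool.Agent.W903.GP`).

Consider `m` questions to a set `A`, where `m = m (n)` is any number at most polynomial in the
length `n` of the questions. `FeasibleIn InPH (ExcludeSorted A)`: some function with values of
polynomial length and graph in `PH` excludes, with `O(log n)` bits of advice, one of the `m + 1`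
sorted vectors `1 ^ c 0 ^ (m - c)` as the vector of the answers; it does not matter what the
function does if the vector of the answers is not sorted, as long as its value is at most `m`.
`FeasibleIn InPH (ExcludeCount A)`: some such function excludes one of the `m + 1` values of the
number of positive answers.

The theorem says that `PP ⊆ PH` if and only if one sorted vector can be excluded in this way for some
set that is hard for `PP`, and that in this case one value of the number of positive answers can be
excluded for all sets in `PP`.

Proof. The values of a `#P` function for all strings of a list are written into one number `N < 2 ^ K`,
which is again the value of a `#P` function. The binary expansions of the numbers up to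
`2 ^ K - 1 - N` form a tree, and the question if the largest element of height `j` of this tree is
smaller than `u` is the question if `N` is at least `2 ^ K - u 2 ^ (K - j)`, which is a question to a
set in `PP`. For lists of elements `u` in decreasing order the answers are sorted, and if the vector
number `c` is excluded, the element number `c` is discarded; the adaptive search is done by functions
with graph in the hierarchy (`Pool.Agent.TH762.PT.EngC`, `Pool.Agent.TH762.QP.EngF`). So a list of
candidates for `N` is computed, and thus a list of candidates for all vectors of answers to questions
to a complete set for `PP`; the rest is an induction along the self-reduction of a set in `PP`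
(`Pool.Agent.W901.NU.ShB`).
-/

set_option autoImplicit false

namespace Pool.Agent.Results.MP_a54059_lc.SortedExclusion

open Pool.Agent.TH762.XC Pool.Agent.TH684.EX Pool.Agent.TH762.PT Pool.Agent.W901.NU
open Pool.Agent.W903.GP (InPH)

/-- **The exclusion law for `PP` in the polynomial hierarchy.** -/
theorem result : List.TFAE
    [∀ L : Set (List Bool), InPPclass L → InPH L,
      ∀ A : Set (List Bool), InPPclass A → FeasibleIn InPH (ExcludeCount A),
      ∃ A : Set (List Bool), PPHard A ∧ FeasibleIn InPH (ExcludeSorted A)] :=
  Pool.Agent.TH762.QP.pp_ph_law

end Pool.Agent.Results.MP_a54059_lc.SortedExclusion
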