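import Pool.Agent.TH925.TP.Final

/-!
# `PP ⊆ PH` and the numbers of Hamiltonian paths and cycles of tournaments

A list `B` of `n` lists of numbers describes the tournament with the vertices `0, …, n - 1` in which,
for `u < v`, the arc goes from `v` to `u` if `u` is in the list number `v` of `B`, and from `u` to `v`
otherwise (`Arc`). Every tournament on `0, …, n - 1` is of this form. `hamPaths B` and `hamCycles B`
are the numbers of its Hamiltonian paths and of its Hamiltonian cycles, and `TwoTransitive B` says
that its vertex set is the union of two transitive subtournaments.

Theorem: the languages of the codes of the `(B, k)` with `k < hamPaths B`, and with `k < hamCycles B`,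
are in `PP`, and the following are equivalent.

* `PP ⊆ PH`;
* the language for Hamiltonian paths is in `PH`;
* there is a language in `PH` which, for all tournaments whose vertex set is the union of two
  transitive subtournaments, decides whether there are more than `k` Hamiltonian paths;
* the same for exactly `k` instead of more than `k`;
* the same three statements for Hamiltonian cycles.

A transitive tournament has exactly one Hamiltonian path, and by Rédei's theorem the number of the
Hamiltonian paths of a tournament is always odd.

Idea of the proof. For a 0-1 matrix with `r` rows and columns take the tournament on the rows, `g`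
fillers and the columns, in this order, all arcs going forward except for those from the column `j`
to the row `i` for the entries `1` at `(i, j)`. A Hamiltonian path is determined by the function which
maps a vertex to the number of backward arcs before it. There are at most `r` backward arcs. If there
are exactly `r` then the function restricted to the rows and to the columns gives two bijections to
the steps, whose quotient is a term of the permanent; conversely such a pair and every surjective
function from the fillers to the `r + 1` runs give a path. So the number of paths is between
`per · r! · ((r + 1) ^ g - (r + 1) r ^ g)` and `per · r! · (r + 1) ^ g + r ^ (2 r + g)`, and the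
permanent can be read off for `g = r (r (2 r + 1) + 2)`. For the cycles one adds a source, a sink and
the arc from the sink to the source. The numbers of satisfying assignments are computed from
permanents in the library folder `Pool/Agent/H549R2` of the starting repository.
-/

set_option autoImplicit false

namespace Pool.Agent.Results.MP_a54059_lc.TournamentPaths

open Pool.Agent.NPC Pool.Agent.W901.NU Pool.Agent.TH925.TP
open Pool.Agent.W903.GP (InPH)

theorem result :
    InPPclass (lang fun x : List (List ℕ) × ℕ => x.2 < hamPaths x.1) ∧
    InPPclass (lang fun x : List (List ℕ) × ℕ => x.2 < hamCycles x.1) ∧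
    List.TFAE [
      ∀ L : Set (List Bool), InPPclass L → InPH L,
      InPH (lang fun x : List (List ℕ) × ℕ => x.2 < hamPaths x.1),
      ∃ A : Set (List Bool), InPH A ∧ ∀ (B : List (List ℕ)) (k : ℕ), TwoTransitive B →
        (bits (B, k) ∈ A ↔ k < hamPaths B),
      ∃ A : Set (List Bool), InPH A ∧ ∀ (B : List (List ℕ)) (k : ℕ), TwoTransitive B →
        (bits (B, k) ∈ A ↔ hamPaths B = k),
      InPH (lang fun x : List (List ℕ) × ℕ => x.2 < hamCycles x.1),
      ∃ A : Set (List Bool), InPH A ∧ ∀ (B : List (List ℕ)) (k : ℕ), TwoTransitive B →
        (bits (B, k) ∈ A ↔ k < hamCycles B),
      ∃ A : Set (List Bool), InPH A ∧ ∀ (B : List (List ℕ)) (k : ℕ), TwoTransitive B →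
        (bits (B, k) ∈ A ↔ hamCycles B = k)] := by
  have h1 := Fin.tfae_paths cl_ph
  have h2 := Fin.tfae_cycles cl_ph
  refine ⟨Fin.pp_paths, Fin.pp_cycles, ?_⟩
  tfae_have 1 ↔ 2 := h1.out 0 1
  tfae_have 1 ↔ 3 := h1.out 0 2
  tfae_have 1 ↔ 4 := h1.out 0 3
  tfae_have 1 ↔ 5 := h2.out 0 1
  tfae_have 1 ↔ 6 := h2.out 0 2
  tfae_have 1 ↔ 7 := h2.out 0 3
  tfae_finish

end Pool.Agent.Results.MP_a54059_lc.TournamentPaths
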